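import Pool.Agent.RS.StmtsT

set_option autoImplicit false

namespace Pool.Agent.RS.H83

open MvPolynomial

section

variable {k Y : Type} [Field k]

open Classical in
/-- The expansion in powers of `X_y`. -/
noncomputable def ph (y : Y) : MvPolynomial Y k →ₐ[k] Polynomial (MvPolynomial Y k) :=
  aeval fun z => if z = y then Polynomial.X else Polynomial.C (X z)

lemma ph_y (y : Y) : ph (k := k) y (X y) = Polynomial.X := by
  simp [ph]

lemma eval_ph (y : Y) (f : MvPolynomial Y k) : (ph y f).eval (X y) = f := by
  classical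
  have h : ((Polynomial.evalRingHom (X y : MvPolynomial Y k)).comp
      (ph y : MvPolynomial Y k →ₐ[k] Polynomial (MvPolynomial Y k)).toRingHom) =
      RingHom.id (MvPolynomial Y k) := by
    apply MvPolynomial.ringHom_ext
    · intro a
      simp [ph, MvPolynomial.algebraMap_eq]
    · intro i
      by_cases hi : i = y <;> simp [ph, hi]
  exact congrArg (fun g : MvPolynomial Y k →+* MvPolynomial Y k => g f) h

/-- The polynomials free of `y`. -/
lemma ph_free (y : Y) (f : MvPolynomial Y k) (hf : f ∈ supported k {z | z ≠ y}) :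
    ph y f = Polynomial.C f := by
  classical
  unfold supported at hf
  induction hf using Algebra.adjoin_induction with
  | mem x hx =>
    obtain ⟨z, hz, rfl⟩ := hx
    have hz' : z ≠ y := hz
    simp [ph, hz']
  | algebraMap r =>
    simp [ph, MvPolynomial.algebraMap_eq]
  | add a b _ _ ha hb => rw [map_add, ha, hb, Polynomial.C_add]
  | mul a b _ _ ha hb => rw [map_mul, ha, hb, Polynomial.C_mul]

lemma mem_free_iff (y : Y) (f : MvPolynomial Y k) :
    f ∈ supported k {z | z ≠ y} ↔ y ∉ f.vars := by
  rw [mem_supported]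
  constructor
  · intro h hy
    exact h hy rfl
  · intro h z hz hzy
    rw [hzy] at hz
    exact h hz

open Classical in
lemma ph_monomial (y : Y) (m : Y →₀ ℕ) (r : k) :
    ph y (monomial m r) = Polynomial.C (monomial (m.erase y) r) * Polynomial.X ^ (m y) := by
  have h1 : (monomial m r : MvPolynomial Y k) = monomial (m.erase y) r * X y ^ (m y) := by
    rw [X_pow_eq_monomial, monomial_mul, mul_one, Finsupp.erase_add_single]
  rw [h1, map_mul, map_pow, ph_y, ph_free]
  rw [mem_free_iff]
  intro hy
  by_cases hr : r = 0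
  · subst hr
    simp at hy
  · rw [vars_monomial hr] at hy
    simp at hy

open Classical in
lemma coeff_ph (y : Y) (f : MvPolynomial Y k) (i : ℕ) :
    (ph y f).coeff i = ∑ m ∈ f.support.filter (fun m => m y = i), monomial (m.erase y) (f.coeff m) := by
  conv_lhs => rw [f.as_sum, map_sum, Polynomial.finsetSum_coeff]
  rw [Finset.sum_filter]
  refine Finset.sum_congr rfl fun m hm => ?_
  rw [ph_monomial, Polynomial.coeff_C_mul_X_pow]
  by_cases h : m y = i
  · rw [if_pos h, if_pos h.symm]
  · rw [if_neg h, if_neg (fun h' => h h'.symm)]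

lemma coeff_ph_free (y : Y) (f : MvPolynomial Y k) (i : ℕ) : y ∉ ((ph y f).coeff i).vars := by
  classical
  rw [← mem_free_iff, coeff_ph]
  refine Subalgebra.sum_mem _ fun m hm => ?_
  rw [mem_free_iff]
  intro hy
  have hr : f.coeff m ≠ 0 := by
    have := (Finset.mem_filter.1 hm).1
    exact mem_support_iff.1 this
  rw [vars_monomial hr] at hy
  simp at hy

lemma coeff_ph_vars (y : Y) (f : MvPolynomial Y k) (i : ℕ) : ((ph y f).coeff i).vars ⊆ f.vars := by
  classical
  have h : (ph y f).coeff i ∈ supported k (f.vars : Set Y) := by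
    rw [coeff_ph]
    refine Subalgebra.sum_mem _ fun m hm => ?_
    have hm1 := (Finset.mem_filter.1 hm).1
    have hr : f.coeff m ≠ 0 := mem_support_iff.1 hm1
    rw [mem_supported, vars_monomial hr]
    intro z hz
    rw [Finset.mem_coe, mem_vars_iff_mem_support]
    refine ⟨m, hm1, ?_⟩
    rw [Finset.mem_coe, Finsupp.support_erase] at hz
    exact Finset.mem_of_mem_erase hz
  rw [mem_supported] at h
  exact_mod_cast h

lemma coeff_ph_homog (w : Y → ℕ) (y : Y) (f : MvPolynomial Y k) (N : ℕ)
    (hf : IsWeightedHomogeneous w f N) (i v : ℕ) (hv : v + i * w y = N) :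
    IsWeightedHomogeneous w ((ph y f).coeff i) v := by
  classical
  rw [coeff_ph]
  refine IsWeightedHomogeneous.sum _ _ _ fun m hm => ?_
  have hm1 := (Finset.mem_filter.1 hm).1
  have hm2 := (Finset.mem_filter.1 hm).2
  have hr : f.coeff m ≠ 0 := mem_support_iff.1 hm1
  refine isWeightedHomogeneous_monomial w _ _ ?_
  have h1 := hf hr
  have h2 : m = m.erase y + Finsupp.single y (m y) := (Finsupp.erase_add_single y m).symm
  rw [h2, map_add, Finsupp.weight_single, hm2] at h1
  rw [smul_eq_mul] at h1
  omega

/-- A derivation which maps the variables of `S` to polynomials free of `y` maps the polynomials in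
the variables of `S`, free of `y`, to polynomials free of `y`. -/
lemma D_free (y : Y) (S : Set Y) (D : Derivation k (MvPolynomial Y k) (MvPolynomial Y k))
    (hy : y ∉ S) (hD : ∀ z ∈ S, y ∉ (D (X z)).vars) (f : MvPolynomial Y k) (hf : f ∈ supported k S) :
    D f ∈ supported k {z | z ≠ y} := by
  have hS : supported k S ≤ supported k {z | z ≠ y} := by
    apply supported_mono
    intro z hz hzy
    rw [hzy] at hz
    exact hy hz
  have hf0 := hf
  unfold supported at hf
  induction hf using Algebra.adjoin_induction with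
  | mem x hx =>
    obtain ⟨z, hz, rfl⟩ := hx
    rw [mem_free_iff]
    exact hD z hz
  | algebraMap r =>
    rw [Derivation.map_algebraMap]
    exact Subalgebra.zero_mem _
  | add a b ha' hb' ha hb =>
    rw [map_add]
    exact Subalgebra.add_mem _ (ha ha') (hb hb')
  | mul a b ha' hb' ha hb =>
    rw [Derivation.leibniz, smul_eq_mul, smul_eq_mul]
    exact Subalgebra.add_mem _ (Subalgebra.mul_mem _ (hS ha') (hb hb'))
      (Subalgebra.mul_mem _ (hS hb') (ha ha'))

/-- The expansion of `D P`. -/
lemma ph_D (y : Y) (P : MvPolynomial Y k) (D : Derivation k (MvPolynomial Y k) (MvPolynomial Y k))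
    (hy : y ∈ P.vars) (hD : ∀ z ∈ P.vars, y ∉ (D (X z)).vars) :
    ph y (D P) = ∑ i ∈ Finset.range ((ph y P).natDegree + 1),
      (Polynomial.C (D ((ph y P).coeff i)) * Polynomial.X ^ i +
        Polynomial.C ((ph y P).coeff i * ((i : MvPolynomial Y k) * D (X y))) *
          Polynomial.X ^ (i - 1)) := by
  conv_lhs => rw [← eval_ph y P, Polynomial.eval_eq_sum_range, map_sum, map_sum]
  refine Finset.sum_congr rfl fun i _ => ?_
  have h1 : (ph y P).coeff i ∈ supported k {z | z ≠ y} := by
    rw [mem_free_iff]
    exact coeff_ph_free y P i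
  have h2 : D ((ph y P).coeff i) ∈ supported k {z | z ≠ y} := by
    refine D_free y {z | z ∈ P.vars ∧ z ≠ y} D (fun h => h.2 rfl) (fun z hz => hD z hz.1) _ ?_
    rw [mem_supported]
    intro z hz
    refine ⟨coeff_ph_vars y P i hz, ?_⟩
    rintro rfl
    exact coeff_ph_free z P i hz
  have h3 : D (X y) ∈ supported k {z | z ≠ y} := by
    rw [mem_free_iff]
    exact hD y hy
  rw [Derivation.leibniz, smul_eq_mul, smul_eq_mul, Derivation.leibniz_pow, map_add, map_mul, map_mul,
    map_pow, ph_y, ph_free y _ h1, ph_free y _ h2]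
  rw [nsmul_eq_mul, smul_eq_mul, map_mul, map_mul, map_pow, ph_y, ph_free y _ h3, map_natCast]
  simp only [Polynomial.C_mul, map_natCast]
  ring

end

theorem top : TopStmt := by
  classical
  intro k Y _ _ w P N y hP hy
  set p := ph y P with hp
  set n := p.natDegree with hn
  have hP0 : P ≠ 0 := by
    rintro rfl
    simp at hy
  have hp0 : p ≠ 0 := by
    intro h
    apply hP0
    rw [← eval_ph y P, ← hp, h, Polynomial.eval_zero]
  have hn0 : 0 < n := by
    rcases Nat.eq_zero_or_pos n with h | h
    · exfalso
      have h1 : p = Polynomial.C (p.coeff 0) := Polynomial.eq_C_of_natDegree_eq_zero h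
      have h2 : P = p.coeff 0 := by
        conv_lhs => rw [← eval_ph y P, ← hp, h1, Polynomial.eval_C]
      have h3 := coeff_ph_free y P 0
      rw [← hp, ← h2] at h3
      exact h3 hy
    · exact h
  have ha0 : p.coeff n ≠ 0 := by
    rw [hn]
    exact Polynomial.leadingCoeff_ne_zero.2 hp0
  -- the weight of the leading coefficient
  obtain ⟨v, hv⟩ : ∃ v : ℕ, v + n * w y = N := by
    by_contra hcon
    apply ha0
    rw [hp, coeff_ph]
    refine Finset.sum_eq_zero fun m hm => ?_
    exfalso
    have hm1 := (Finset.mem_filter.1 hm).1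
    have hm2 := (Finset.mem_filter.1 hm).2
    have hr : P.coeff m ≠ 0 := mem_support_iff.1 hm1
    have h1 := hP hr
    have h2 : m = m.erase y + Finsupp.single y (m y) := (Finsupp.erase_add_single y m).symm
    rw [h2, map_add, Finsupp.weight_single, hm2] at h1
    exact hcon ⟨_, h1⟩
  refine ⟨n, v, p.coeff n, p.coeff (n - 1), hn0, ha0, coeff_ph_free y P _, coeff_ph_free y P _,
    coeff_ph_vars y P _, coeff_ph_vars y P _, coeff_ph_homog w y P N hP n v hv, hv,
    coeff_ph_homog w y P N hP (n - 1) (v + w y) ?_, ?_⟩
  · obtain ⟨j, hj⟩ : ∃ j, n = j + 1 := ⟨n - 1, by omega⟩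
    rw [← hv, hj]
    simp only [Nat.add_sub_cancel]
    ring
  · intro D hD hDP
    have h := ph_D y P D hy hD
    rw [hDP, map_zero, ← hp, ← hn] at h
    have key : ∀ j : ℕ, (0 : MvPolynomial Y k) = ∑ i ∈ Finset.range (n + 1),
        ((if j = i then D (p.coeff i) else 0) +
          (if j = i - 1 then p.coeff i * ((i : MvPolynomial Y k) * D (X y)) else 0)) := by
      intro j
      have h1 := congrArg (fun q : Polynomial (MvPolynomial Y k) => q.coeff j) h
      simp only [Polynomial.coeff_zero, Polynomial.finsetSum_coeff, Polynomial.coeff_add,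
        Polynomial.coeff_C_mul_X_pow] at h1
      exact h1
    have e1 : ∀ j : ℕ, j ≤ n →
        ∑ i ∈ Finset.range (n + 1), (if j = i then D (p.coeff i) else 0) = D (p.coeff j) := by
      intro j hj
      rw [Finset.sum_ite_eq, if_pos (Finset.mem_range.2 (by omega))]
    constructor
    · have h1 := key n
      rw [Finset.sum_add_distrib, e1 n le_rfl, Finset.sum_eq_zero, add_zero] at h1
      · exact h1.symm
      · intro i hi
        rw [Finset.mem_range] at hi
        rw [if_neg]
        omega
    · have h1 := key (n - 1)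
      rw [Finset.sum_add_distrib, e1 (n - 1) (by omega), Finset.sum_eq_single n] at h1
      · rw [if_pos rfl] at h1
        rw [h1, smul_eq_C_mul, map_natCast]
        ring
      · intro i hi hin
        rw [Finset.mem_range] at hi
        by_cases hi1 : n - 1 = i - 1
        · have hi0 : i = 0 := by omega
          rw [if_pos hi1, hi0, Nat.cast_zero, zero_mul, mul_zero]
        · rw [if_neg hi1]
      · intro hnn
        exact absurd (Finset.mem_range.2 (by omega)) hnn

end Pool.Agent.RS.H83
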