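import Pool.Agent.RS.StmtsT

set_option autoImplicit false

namespace Pool.Agent.RS.H83

open MvPolynomial

theorem ess (gnb : GnbStmt) (ind : IndStmt) : EssStmt := by
  intro k B Δ _ _ _ _ _ gr d hG hd hker
  obtain ⟨Y, w, g, hg⟩ := gnb k B gr hG
  exact ⟨Y, ⟨AlgEquiv.ofBijective (aeval g : MvPolynomial Y k →ₐ[k] B)
    ⟨ind k B Δ gr Y w g d hG hg hd hker, hg.2.1⟩⟩⟩

end Pool.Agent.RS.H83
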